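import Pool.Agent.Helper14.CV.StA

/-! # Project CV (MP_3c9520_nt): module A1 (the primitive of a cusp form) -/

set_option autoImplicit false

open UpperHalfPlane CongruenceSubgroup
open scoped MatrixGroups

namespace Pool.Agent.Helper7.CV

open Pool.Agent.Helper14.CV

private lemma sp (N : ℕ) : (1 : ℝ) ∈ (G0 N).strictPeriods := by
  simp

private lemma hs {N : ℕ} (hN : NeZero N) (f : CuspForm (G0 N) 2) (z : ℂ) (hz : 0 < z.im) :
    HasSum (fun m : ℕ => fc f m * Complex.exp (2 * Real.pi * Complex.I * m * z)) (fz f z) := by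
  have h := ModularForm.hasSum_qExpansion (F := CuspForm (G0 N) 2) (k := 2) f one_pos (sp N) ⟨z, hz⟩
  have e : fz f z = f ⟨z, hz⟩ := by
    unfold fz
    rw [UpperHalfPlane.ofComplex_apply_of_im_pos hz]
  rw [e]
  refine h.congr_fun ?_
  intro m
  unfold fc Function.Periodic.qParam
  rw [← Complex.exp_nat_mul]
  congr 2
  push_cast
  simp only [UpperHalfPlane.coe_mk, div_one]
  ring

private lemma fc0 {N : ℕ} (hN : NeZero N) (f : CuspForm (G0 N) 2) : fc f 0 = 0 := by
  unfold fc
  rw [UpperHalfPlane.qExpansion_coeff_zero one_pos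
    (ModularFormClass.analyticAt_cuspFunction_zero f one_pos (sp N))
    (SlashInvariantFormClass.periodic_comp_ofComplex f (sp N))]
  exact (CuspFormClass.zero_at_infty f).valueAtInfty_eq_zero

theorem hA1 : StA1 := by
  intro N hN f z hz
  have h1 := hs hN f z hz
  have hsum : Summable fun m : ℕ => fc f m / m * Complex.exp (2 * Real.pi * Complex.I * m * z) := by
    refine Summable.of_norm_bounded h1.summable.norm ?_
    intro m
    rcases Nat.eq_zero_or_pos m with rfl | hm
    · simp
    · rw [norm_mul, norm_mul, norm_div]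
      have hm1 : (1 : ℝ) ≤ ‖(m : ℂ)‖ := by
        rw [Complex.norm_natCast]
        exact_mod_cast hm
      exact mul_le_mul_of_nonneg_right (div_le_self (norm_nonneg _) hm1) (norm_nonneg _)
  refine ⟨hsum, h1, ?_⟩
  -- derivative
  set t : ℝ := z.im / 2 with ht
  have ht0 : 0 < t := by positivity
  have hzt : t < z.im := by
    rw [ht]
    linarith
  have hopen : IsOpen {w : ℂ | t < w.im} := isOpen_lt continuous_const Complex.continuous_im
  have hpre : IsPreconnected {w : ℂ | t < w.im} := (convex_halfSpace_im_gt t).isPreconnected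
  have hu : Summable fun m : ℕ => 2 * Real.pi *
      ‖fc f m * Complex.exp (2 * Real.pi * Complex.I * m * (t * Complex.I))‖ := by
    apply Summable.mul_left
    exact (hs hN f (t * Complex.I) (by simpa using ht0)).summable.norm
  have hne : ∀ (m : ℕ) (w : ℂ), ‖Complex.exp (2 * Real.pi * Complex.I * m * w)‖ =
      Real.exp (-(2 * Real.pi * m * w.im)) := by
    intro m w
    rw [Complex.norm_exp]
    congr 1
    simp [Complex.mul_re, Complex.mul_im]
  have key := hasDerivAt_tsum_of_isPreconnected
    (g := fun (m : ℕ) (w : ℂ) => fc f m / m * Complex.exp (2 * Real.pi * Complex.I * m * w))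
    (g' := fun (m : ℕ) (w : ℂ) => 2 * Real.pi * Complex.I *
      (fc f m * Complex.exp (2 * Real.pi * Complex.I * m * w)))
    (u := fun m : ℕ => 2 * Real.pi *
      ‖fc f m * Complex.exp (2 * Real.pi * Complex.I * m * (t * Complex.I))‖)
    (t := {w : ℂ | t < w.im}) (y₀ := z) (y := z) hu hopen hpre ?_ ?_ hzt hsum hzt
  · have e : (∑' m : ℕ, 2 * Real.pi * Complex.I *
        (fc f m * Complex.exp (2 * Real.pi * Complex.I * m * z))) =
        2 * Real.pi * Complex.I * fz f z := by
      rw [tsum_mul_left, h1.tsum_eq]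
    rw [e] at key
    exact key
  · intro m w _
    have d1 : HasDerivAt (fun w : ℂ => 2 * Real.pi * Complex.I * m * w)
        (2 * Real.pi * Complex.I * m) w := by
      simpa using (hasDerivAt_id w).const_mul (2 * Real.pi * Complex.I * (m : ℂ))
    have d2 := (d1.cexp).const_mul (fc f m / m)
    rcases Nat.eq_zero_or_pos m with rfl | hm
    · have h0 := fc0 hN f
      simp only [h0, zero_div, zero_mul, mul_zero]
      exact hasDerivAt_const w (0 : ℂ)
    · have hm0 : (m : ℂ) ≠ 0 := by exact_mod_cast hm.ne'
      have e : fc f m / m * (Complex.exp (2 * Real.pi * Complex.I * m * w) *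
          (2 * Real.pi * Complex.I * m)) =
          2 * Real.pi * Complex.I * (fc f m * Complex.exp (2 * Real.pi * Complex.I * m * w)) := by
        field_simp
      rw [e] at d2
      exact d2
  · intro m w hw
    have hw' : t < w.im := hw
    have e1 : ‖(2 : ℂ) * (Real.pi : ℂ) * Complex.I‖ = 2 * Real.pi := by
      rw [norm_mul, norm_mul, Complex.norm_real, Real.norm_of_nonneg Real.pi_pos.le, Complex.norm_I,
        mul_one]
      simp
    have e2 : ((t : ℂ) * Complex.I).im = t := by simp
    rw [norm_mul, e1, norm_mul, norm_mul, hne, hne, e2]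
    apply mul_le_mul_of_nonneg_left _ (by positivity)
    apply mul_le_mul_of_nonneg_left _ (norm_nonneg _)
    apply Real.exp_le_exp.mpr
    have : 2 * Real.pi * (m : ℝ) * t ≤ 2 * Real.pi * m * w.im :=
      mul_le_mul_of_nonneg_left hw'.le (by positivity)
    linarith

end Pool.Agent.Helper7.CV
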